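import Mathlib
import Pool.Agent.H59.TotExt.Main

/-!
# Extending total colourings of distance-3 matchings in `d`-degenerate graphs

`Degenerate G d`: every nonempty set `S` of vertices contains a vertex with at most `d` neighbours
in `S`. `H` is a distance-3 matching of `G`: a subgraph in which every vertex has at most one
neighbour, and two vertices of `H` which are not joined in `H` have distance at least 3 in `G`.
-/

namespace Pool.Agent.Results.MP_db9399_co.DegenerateGraphs

/-- `g` (on the vertices) and `f` (on the edges) form a total colouring of `G` with `k` colours. -/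
def IsTotalColoring {V : Type} {k : ℕ} (G : SimpleGraph V) (g : V → Fin k) (f : Sym2 V → Fin k) :
    Prop :=
  (∀ u v, G.Adj u v → g u ≠ g v) ∧
  (∀ u v w, G.Adj u v → G.Adj u w → v ≠ w → f s(u, v) ≠ f s(u, w)) ∧
  (∀ u v, G.Adj u v → g u ≠ f s(u, v))

/-- The total colouring `g0`, `f0` of `H` extends to a total colouring of `G` with the same
colours. -/
def Extends {V : Type} {k : ℕ} (G H : SimpleGraph V) (g0 : V → Fin k) (f0 : Sym2 V → Fin k) :
    Prop :=
  ∃ (g : V → Fin k) (f : Sym2 V → Fin k), IsTotalColoring G g f ∧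
    (∀ v ∈ H.support, g v = g0 v) ∧ ∀ e ∈ H.edgeSet, f e = f0 e

/-- `H` is a distance-3 matching in `G`. -/
def IsDistThreeMatching {V : Type} (G H : SimpleGraph V) : Prop :=
  H ≤ G ∧ (∀ u v w, H.Adj u v → H.Adj u w → v = w) ∧
    ∀ u v, u ∈ H.support → v ∈ H.support → u ≠ v → ¬ H.Adj u v → 3 ≤ G.edist u v

/-- Every nonempty set `S` of vertices contains a vertex with at most `d` neighbours in `S`. -/
def Degenerate {V : Type} (G : SimpleGraph V) (d : ℕ) : Prop :=
  ∀ S : Set V, S.Nonempty → ∃ v ∈ S, (G.neighborSet v ∩ S).ncard ≤ d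

open Pool.Agent.H59.TotExt in
/-- Let `G` be a finite `d`-degenerate graph with all degrees at most `D` and `H` a distance-3
matching in `G`. If `k ≥ D + d` and `k ≥ 2 d + 3`, then every total-`k`-colouring of `H` extends
to a total-`k`-colouring of `G`. -/
theorem result (V : Type) [Fintype V] (G : SimpleGraph V) (D d k : ℕ)
    (hD : ∀ v, (G.neighborSet v).ncard ≤ D) (hd : Degenerate G d)
    (hk1 : D + d ≤ k) (hk2 : 2 * d + 3 ≤ k)
    (H : SimpleGraph V) (hH : IsDistThreeMatching G H)
    (g0 : V → Fin k) (f0 : Sym2 V → Fin k) (h0 : IsTotalColoring H g0 f0) :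
    Extends G H g0 f0 := by
  classical
  have hnb : ∀ (S : Finset V) (v : V), (nb G S v).card = (G.neighborSet v ∩ (S : Set V)).ncard := by
    intro S v
    rw [← Set.ncard_coe_finset]
    congr 1
    ext x
    simp only [Finset.mem_coe, mem_nb, Set.mem_inter_iff, SimpleGraph.mem_neighborSet]
    tauto
  let supp : Finset V := Finset.univ.filter (fun v => v ∈ H.support)
  have hsupp : ∀ v, v ∈ supp ↔ v ∈ H.support := by
    intro v; simp [supp]
  have hadj : ∀ u ∈ supp, ∀ v ∈ supp, G.Adj u v → H.Adj u v := by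
    intro u hu v hv huv
    by_contra hcon
    have h3 := hH.2.2 u v ((hsupp u).1 hu) ((hsupp v).1 hv) huv.ne hcon
    have h1 : G.edist u v ≤ 1 := by
      have := (SimpleGraph.Walk.cons huv SimpleGraph.Walk.nil).edist_le
      simpa using this
    exact absurd (h3.trans h1) (by decide)
  have hcommon : ∀ w, w ∉ supp → ∀ u ∈ supp, ∀ v ∈ supp, G.Adj w u → G.Adj w v → u ≠ v →
      H.Adj u v := by
    intro w _ u hu v hv hwu hwv hne
    by_contra hcon
    have h3 := hH.2.2 u v ((hsupp u).1 hu) ((hsupp v).1 hv) hne hcon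
    have h1 : G.edist u v ≤ 2 := by
      have := (SimpleGraph.Walk.cons hwu.symm
        (SimpleGraph.Walk.cons hwv SimpleGraph.Walk.nil)).edist_le
      simpa using this
    exact absurd (h3.trans h1) (by decide)
  obtain ⟨g, f, hcol, hg, hf⟩ := Pool.Agent.H59.TotExt.main G H d D supp hadj hH.2.1 hcommon
    (by
      intro v
      rw [hnb]
      simpa using hD v)
    (by
      intro S hS
      obtain ⟨v, hv, hv2⟩ := hd (S : Set V) (by simpa using hS)
      exact ⟨v, by simpa using hv, by rw [hnb]; exact hv2⟩)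
    hk1 hk2 g0 f0 h0.1 h0.2.2 _ Finset.univ (Finset.subset_univ _) rfl
  refine ⟨g, f, ⟨?_, ?_, ?_⟩, ?_, ?_⟩
  · intro u v huv
    exact hcol.1 u (Finset.mem_univ _) v (Finset.mem_univ _) huv
  · intro u v w huv huw hvw
    exact hcol.2.1 u (Finset.mem_univ _) v (Finset.mem_univ _) w (Finset.mem_univ _) huv huw hvw
  · intro u v huv
    exact hcol.2.2 u (Finset.mem_univ _) v (Finset.mem_univ _) huv
  · intro v hv
    exact hg v ((hsupp v).2 hv)
  · intro e he
    induction e using Sym2.ind with
    | _ u v =>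
      rw [SimpleGraph.mem_edgeSet] at he
      exact hf u ((hsupp u).2 ⟨v, he⟩) v ((hsupp v).2 ⟨u, he.symm⟩)

end Pool.Agent.Results.MP_db9399_co.DegenerateGraphs
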