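import Pool.Agent.H59.TQ.Count

/-!
# Extending total colourings from distance-3 matchings: average degree against colours
-/

set_option autoImplicit false

namespace Pool.Agent.Results.MP_db9399_co.SparseTradeoff

open Finset Pool.Agent.N410.TE Pool.Agent.H59.TQ

/-- The colours `c` of the vertices and `d` of the edges form a total colouring of `G`: adjacent
vertices get different colours, distinct edges with a common end get different colours, and an edge
gets a colour different from the colours of its ends. (Values of `d` at pairs that are not edges of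
`G` play no role.) -/
structure IsTotalColoring {V α : Type} (G : SimpleGraph V) (c : V → α) (d : Sym2 V → α) :
    Prop where
  vert : ∀ u v, G.Adj u v → c u ≠ c v
  edge : ∀ u v w, G.Adj u v → G.Adj u w → v ≠ w → d s(u, v) ≠ d s(u, w)
  inc : ∀ u v, G.Adj u v → d s(u, v) ≠ c u

/-- `H` (with vertex set `H.support`, the ends of its edges) is a distance-3 matching in `G`. -/
structure IsDistThreeMatching {V : Type} (G H : SimpleGraph V) : Prop where
  le : H ≤ G
  matching : ∀ u v w, H.Adj u v → H.Adj u w → v = w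
  dist : ∀ u ∈ H.support, ∀ v ∈ H.support, u ≠ v → ¬ H.Adj u v → 3 ≤ G.edist u v

/-- Every total-`k`-coloring of `H` extends to a total-`k`-coloring of `G`. -/
def Extends {V : Type} (G H : SimpleGraph V) (k : ℕ) : Prop :=
  ∀ (c : V → Fin k) (d : Sym2 V → Fin k), IsTotalColoring H c d →
    ∃ (c' : V → Fin k) (d' : Sym2 V → Fin k), IsTotalColoring G c' d' ∧
      (∀ v ∈ H.support, c' v = c v) ∧ ∀ e ∈ H.edgeSet, d' e = d e

/-- Whenever every vertex and every edge of `G` outside `H` has a list of at least `k` colours,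
every total colouring of `H` (with any colours) extends to a total colouring of `G` in which the
vertices and edges outside `H` get colours from their lists. -/
def ListExtends {V : Type} (G H : SimpleGraph V) (k : ℕ) : Prop :=
  ∀ (L : V → Finset ℕ) (M : Sym2 V → Finset ℕ), (∀ v, v ∉ H.support → k ≤ (L v).card) →
    (∀ e ∈ G.edgeSet, e ∉ H.edgeSet → k ≤ (M e).card) →
    ∀ (c : V → ℕ) (d : Sym2 V → ℕ), IsTotalColoring H c d →
      ∃ (c' : V → ℕ) (d' : Sym2 V → ℕ), IsTotalColoring G c' d' ∧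
        (∀ v ∈ H.support, c' v = c v) ∧ (∀ e ∈ H.edgeSet, d' e = d e) ∧
        (∀ v, v ∉ H.support → c' v ∈ L v) ∧
        ∀ e ∈ G.edgeSet, e ∉ H.edgeSet → d' e ∈ M e

/-- the degree of `v` in `F` -/
noncomputable def deg {V : Type} (F : SimpleGraph V) (v : V) : ℕ := (F.neighborSet v).ncard

/-- the number of edges of `F` -/
noncomputable def edges {V : Type} (F : SimpleGraph V) : ℕ := F.edgeSet.ncard

/-- the number of vertices of `F` which are not isolated -/
noncomputable def verts {V : Type} (F : SimpleGraph V) : ℕ := F.support.ncard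

/-- Every subgraph has average degree less than `m` (isolated vertices are not counted). -/
def AverageLess {V : Type} (G : SimpleGraph V) (m : ℕ) : Prop :=
  ∀ F ≤ G, F ≠ ⊥ → 2 * edges F < m * verts F

section bridge

variable {V : Type} [Fintype V] [DecidableEq V]

theorem exists_graph (G : SimpleGraph V) (Q : Finset (Sym2 V)) (hQ : ∀ e ∈ Q, e ∈ G.edgeSet) :
    ∃ F ≤ G, ∀ e, e ∈ Q ↔ e ∈ F.edgeSet := by
  have h1 : ∀ e, e ∈ Q ↔ e ∈ (SimpleGraph.fromEdgeSet (Q : Set (Sym2 V))).edgeSet := by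
    intro e
    rw [SimpleGraph.edgeSet_fromEdgeSet]
    constructor
    · intro he
      exact ⟨he, G.not_isDiag_of_mem_edgeSet (hQ e he)⟩
    · intro he
      exact he.1
  refine ⟨SimpleGraph.fromEdgeSet (Q : Set (Sym2 V)), fun a b hab => ?_, h1⟩
  have h2 : s(a, b) ∈ (SimpleGraph.fromEdgeSet (Q : Set (Sym2 V))).edgeSet := hab
  exact hQ _ ((h1 _).2 h2)

theorem deg_eq {F : SimpleGraph V} {Q : Finset (Sym2 V)} (h : ∀ e, e ∈ Q ↔ e ∈ F.edgeSet) (v : V) :
    deg F v = dE Q v := by
  unfold deg dE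
  rw [← Set.ncard_coe_finset]
  have h1 : ((Q.filter (fun e => v ∈ e) : Finset (Sym2 V)) : Set (Sym2 V)) =
      (fun w => s(v, w)) '' F.neighborSet v := by
    ext e
    rw [mem_coe, mem_filter, h]
    constructor
    · rintro ⟨he, w, rfl⟩
      exact ⟨w, he, rfl⟩
    · rintro ⟨w, hw, rfl⟩
      exact ⟨hw, Sym2.mem_mk_left _ _⟩
  rw [h1, Set.ncard_image_of_injective _ (fun a b hab => Sym2.congr_right.1 hab)]

theorem edges_eq {F : SimpleGraph V} {Q : Finset (Sym2 V)} (h : ∀ e, e ∈ Q ↔ e ∈ F.edgeSet) :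
    edges F = Q.card := by
  unfold edges
  rw [← Set.ncard_coe_finset]
  congr 1
  ext e
  rw [mem_coe, h]

theorem verts_eq {F : SimpleGraph V} {Q : Finset (Sym2 V)} (h : ∀ e, e ∈ Q ↔ e ∈ F.edgeSet) :
    verts F = (cov Q).card := by
  unfold verts
  rw [← Set.ncard_coe_finset]
  congr 1
  ext v
  rw [mem_coe, mem_cov', SimpleGraph.mem_support]
  constructor
  · rintro ⟨w, hw⟩
    exact ⟨s(v, w), (h _).2 hw, Sym2.mem_mk_left _ _⟩
  · rintro ⟨e, he, w, rfl⟩
    exact ⟨w, (h _).1 he⟩

theorem ne_bot {F : SimpleGraph V} {Q : Finset (Sym2 V)} (h : ∀ e, e ∈ Q ↔ e ∈ F.edgeSet)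
    (hne : Q.Nonempty) : F ≠ ⊥ := by
  rintro rfl
  obtain ⟨e, he⟩ := hne
  rw [h, SimpleGraph.edgeSet_bot] at he
  exact he

theorem setting {G H : SimpleGraph V} {Δ : ℕ} (hΔ : ∀ v, deg G v ≤ Δ)
    (hH : IsDistThreeMatching G H) {hv : Finset V} {EG EH : Finset (Sym2 V)}
    (hhv : ∀ v, v ∈ hv ↔ v ∈ H.support) (hEG : ∀ e, e ∈ EG ↔ e ∈ G.edgeSet)
    (hEH : ∀ e, e ∈ EH ↔ e ∈ H.edgeSet) : Setting G H hv EG EH Δ where
  memG := hEG
  memH := hEH
  memv v := by rw [hhv, SimpleGraph.mem_support]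
  le := hH.le
  mat := hH.matching
  near1 u hu v hv huv := by
    by_contra hn
    have h3 := hH.dist u ((hhv u).1 hu) v ((hhv v).1 hv) huv.ne hn
    have h4 := SimpleGraph.Walk.edist_le (SimpleGraph.Walk.cons huv SimpleGraph.Walk.nil)
    have h5 := h3.trans h4
    simp only [SimpleGraph.Walk.length_cons, SimpleGraph.Walk.length_nil] at h5
    norm_cast at h5
  near2 w u hu v hv h1 h2 huv := by
    by_contra hn
    have h3 := hH.dist u ((hhv u).1 hu) v ((hhv v).1 hv) huv hn
    have h4 := SimpleGraph.Walk.edist_le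
      (SimpleGraph.Walk.cons h1.symm (SimpleGraph.Walk.cons h2 SimpleGraph.Walk.nil))
    have h5 := h3.trans h4
    simp only [SimpleGraph.Walk.length_cons, SimpleGraph.Walk.length_nil] at h5
    norm_cast at h5
  deg v := by
    rw [← deg_eq hEG v]
    exact hΔ v

end bridge

theorem extends_of_list {V : Type} {G H : SimpleGraph V} {k : ℕ} (hk : 0 < k)
    (h : ListExtends G H k) : Extends G H k := by
  intro c d hcd
  obtain ⟨c', d', h1, h2, h3, h4, h5⟩ := h (fun _ => range k) (fun _ => range k)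
    (fun v _ => by rw [card_range]) (fun e _ _ => by rw [card_range])
    (fun v => (c v).1) (fun e => (d e).1)
    ⟨fun u v huv h => hcd.vert u v huv (Fin.ext h),
      fun u v w huv huw hvw h => hcd.edge u v w huv huw hvw (Fin.ext h),
      fun u v huv h => hcd.inc u v huv (Fin.ext h)⟩
  have hc' : ∀ v, c' v < k := by
    intro v
    by_cases hv : v ∈ H.support
    · rw [h2 v hv]
      exact (c v).2
    · exact mem_range.1 (h4 v hv)
  have hd' : ∀ e ∈ G.edgeSet, d' e < k := by
    intro e he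
    by_cases heH : e ∈ H.edgeSet
    · rw [h3 e heH]
      exact (d e).2
    · exact mem_range.1 (h5 e he heH)
  have hval : ∀ e, e ∈ G.edgeSet →
      (if h : d' e < k then (⟨d' e, h⟩ : Fin k) else ⟨0, hk⟩).1 = d' e := by
    intro e he
    rw [dif_pos (hd' e he)]
  have hvalH : ∀ e, e ∈ H.edgeSet →
      (if h : d' e < k then (⟨d' e, h⟩ : Fin k) else ⟨0, hk⟩) = d e := by
    intro e he
    have h6 : d' e < k := by
      rw [h3 e he]
      exact (d e).2
    rw [dif_pos h6]
    exact Fin.ext (h3 e he)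
  refine ⟨fun v => ⟨c' v, hc' v⟩, fun e => if h : d' e < k then ⟨d' e, h⟩ else ⟨0, hk⟩,
    ⟨?_, ?_, ?_⟩, ?_, hvalH⟩
  · intro u v huv h
    exact h1.vert u v huv (congrArg Fin.val h)
  · intro u v w huv huw hvw h
    have h6 := congrArg Fin.val h
    rw [hval _ huv, hval _ huw] at h6
    exact h1.edge u v w huv huw hvw h6
  · intro u v huv h
    have h6 := congrArg Fin.val h
    rw [hval _ huv] at h6
    exact h1.inc u v huv h6
  · intro v hv
    exact Fin.ext (h2 v hv)

/-- Let `G` be a finite graph with all degrees at most `Δ`, all of whose subgraphs have average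
degree less than `m`, and let `H` be a distance-3 matching in `G`. Let `1 ≤ q ≤ m - 2`,
`2 m + 1 ≤ Δ + q` and
`(m - q - 1) (m - q - 2) + (q + 1) (q + 4) ≤ 2 (q + 1) (Δ - m)`.
Then for all `k ≥ Δ + 1 + q` every total-`k`-coloring of `H` extends to a total-`k`-coloring of
`G`, and even to a total colouring from lists of size `k`. -/
theorem result {V : Type} [Finite V] (G H : SimpleGraph V) (Δ m q k : ℕ)
    (hΔ : ∀ v, deg G v ≤ Δ) (hH : IsDistThreeMatching G H) (hav : AverageLess G m)
    (hq : 1 ≤ q) (hqm : q + 2 ≤ m) (h2m : 2 * m + 1 ≤ Δ + q)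
    (h4 : (m - q - 1) * (m - q - 2) + (q + 1) * (q + 4) ≤ 2 * (q + 1) * (Δ - m))
    (hk : Δ + 1 + q ≤ k) :
    ListExtends G H k ∧ Extends G H k := by
  classical
  have := Fintype.ofFinite V
  suffices hL : ListExtends G H k from ⟨hL, extends_of_list (by omega) hL⟩
  intro L M hL hM c d hcd
  have h4' : (m - q - 1) * (m - q - 2) + (q + 1) * (q + 4) + 2 * (q + 1) * m ≤
      2 * (q + 1) * Δ := by
    have h5 : 2 * (q + 1) * (Δ - m) + 2 * (q + 1) * m = 2 * (q + 1) * Δ := by
      rw [← Nat.mul_add]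
      congr 1
      omega
    omega
  set hv : Finset V := univ.filter (fun v => v ∈ H.support) with hhvd
  set EG : Finset (Sym2 V) := univ.filter (fun e => e ∈ G.edgeSet) with hEGd
  set EH : Finset (Sym2 V) := univ.filter (fun e => e ∈ H.edgeSet) with hEHd
  have hhv : ∀ v, v ∈ hv ↔ v ∈ H.support := by simp [hhvd]
  have hEG : ∀ e, e ∈ EG ↔ e ∈ G.edgeSet := by simp [hEGd]
  have hEH : ∀ e, e ∈ EH ↔ e ∈ H.edgeSet := by simp [hEHd]
  have S : Setting G H hv EG EH Δ := setting hΔ hH hhv hEG hEH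
  have hEHG : EH ⊆ EG := fun e he => (hEG e).2 (SimpleGraph.edgeSet_mono hH.le ((hEH e).1 he))
  have hLs : ∀ v, v ∉ hv → Δ + 1 + q ≤ (L v).card := fun v hv' =>
    hk.trans (hL v (fun h => hv' ((hhv v).2 h)))
  have hMs : ∀ e ∈ EG, e ∉ EH → Δ + 1 + q ≤ (M e).card := fun e he he' =>
    hk.trans (hM e ((hEG e).1 he) (fun h => he' ((hEH e).2 h)))
  have hc0 : ∀ u v, H.Adj u v → c u ≠ c v := hcd.vert
  have hg0 : ∀ u v, H.Adj u v → d s(u, v) ≠ c u := hcd.inc
  have hdiag : ∀ Q ⊆ EG, ∀ e ∈ Q, ¬ e.IsDiag := fun Q hQ e he =>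
    G.not_isDiag_of_mem_edgeSet ((hEG e).1 (hQ he))
  have hext : ∃ c' g', Good L M G hv EH c d EG univ c' g' := by
    refine ext_all3 (r := m - 1) (q := q) S hq (by omega) (by omega) rfl hLs hMs
      (fun Q hQ hne => ?_) hc0 hg0 _ EG rfl hEHG (Subset.refl _)
    refine red_mad' hqm h2m h4' Q (hdiag Q hQ) (fun v => (dE_mono hQ v).trans (S.deg v)) ?_
    obtain ⟨F, hFG, hF⟩ := exists_graph G Q (fun e he => (hEG e).1 (hQ he))
    have h1 := hav F hFG (ne_bot hF hne)
    rw [edges_eq hF, verts_eq hF] at h1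
    exact h1
  obtain ⟨c', g', hg⟩ := hext
  refine ⟨c', g', ⟨?_, ?_, ?_⟩, ?_, ?_, ?_, ?_⟩
  · intro u v huv
    exact hg.col u v ((hEG _).2 huv) (mem_univ _) (mem_univ _)
  · intro u v w huv huw hvw
    exact hg.edg _ ((hEG _).2 huv) _ ((hEG _).2 huw) (fun h => hvw (Sym2.congr_right.1 h)) u
      (Sym2.mem_mk_left _ _) (Sym2.mem_mk_left _ _)
  · intro u v huv
    exact hg.inc _ ((hEG _).2 huv) u (Sym2.mem_mk_left _ _) (mem_univ _)
  · intro v hv'
    exact hg.pc v ((hhv v).2 hv')
  · intro e he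
    exact hg.pe e ((hEH e).2 he)
  · intro v hv'
    exact hg.lc v (mem_univ _) (fun h => hv' ((hhv v).1 h))
  · intro e he he'
    exact hg.ld e ((hEG e).2 he) (fun h => he' ((hEH e).1 h))

end Pool.Agent.Results.MP_db9399_co.SparseTradeoff
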